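import Pool.Agent.Helper66.FT.Main

/-!
Ancillary spins.
-/

set_option autoImplicit false
set_option linter.unusedSectionVars false

open scoped BigOperators Matrix ComplexConjugate ComplexOrder
open Finset Pool.Agent.TH235.PP Pool.Agent.Results.MP_953b23_mp.OverlapBoosting
  Pool.Agent.Helper99.PE Pool.Agent.Helper66.FD

namespace Pool.Agent.Helper66.FT

/-- the local basis of the doubled stack: the first layer and the rest -/
def e4 (d a : ℕ) : Fin d × Fin (a * (d * a)) ≃ Fin ((d * a) * (d * a)) :=
  (Equiv.prodCongr (Equiv.refl (Fin d)) finProdFinEquiv.symm).trans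
    ((Equiv.prodAssoc (Fin d) (Fin a) (Fin (d * a))).symm.trans
      ((Equiv.prodCongr finProdFinEquiv (Equiv.refl (Fin (d * a)))).trans finProdFinEquiv))

theorem rk_stack {L d a : ℕ} [NeZero L] (ψ : (Site L → Fin d) → ℂ) (η : (Site L → Fin a) → ℂ) :
    rk (stack ψ η) (stack ψ η) =
      stackE (e4 d a) ψ (stack η fun s => conj (stack ψ η s)) := by
  funext s
  simp only [rk, stack, stackE, e4, Equiv.symm_trans_apply, Equiv.symm_symm, Equiv.prodCongr_symm,
    Equiv.prodCongr_apply, Equiv.prodAssoc_apply, Prod.map, Equiv.refl_symm, Equiv.refl_apply,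
    Equiv.symm_apply_apply]
  ring

theorem normSq_conj {S : Type*} [Fintype S] (x : S → ℂ) : normSq (fun s => conj (x s)) = normSq x := by
  unfold normSq
  simp

end Pool.Agent.Helper66.FT
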