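import Pool.Agent.Helper66.FD.Defs

/-!
Local Lindblad dynamics on the torus.
-/

set_option autoImplicit false
set_option linter.unusedSectionVars false

open scoped BigOperators Matrix ComplexConjugate ComplexOrder
open Finset Pool.Agent.TH235.PP Pool.Agent.Results.MP_953b23_mp.OverlapBoosting
  Pool.Agent.Helper99.PE Pool.Agent.Helper66.FD

namespace Pool.Agent.Helper66.FT

/-- The operator `-i H - (1/2) ∑ j, (K j)^* K j` on the box. -/
noncomputable def drift {d R q : ℕ} (H : BoxOp d R) (K : Fin q → BoxOp d R) : BoxOp d R :=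
  -(Complex.I • H) - (1 / 2 : ℂ) • ∑ j, (K j)ᴴ * K j

/-- The Lindblad superoperator of the box with Hamiltonian `H` and jump operators `K j`, that is
`X ↦ A X + X A^* + ∑ j, K j X (K j)^*` with `A = -i H - (1/2) ∑ j, (K j)^* K j`, or
`X ↦ -i (H X - X H) + ∑ j, (K j X (K j)^* - (1/2) ((K j)^* K j X + X (K j)^* K j))`. -/
noncomputable def lindblad {d R q : ℕ} (H : BoxOp d R) (K : Fin q → BoxOp d R) :
    BoxOp (d * d) R :=
  sop (drift H K) 1 + sop 1 (drift H K) + ∑ j, sop (K j) (K j)

/-- The generator on the torus: the sum over all sites `u` of the Lindblad superoperators with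
Hamiltonian `H u` and jump operators `K u j` on the box at `u`. -/
noncomputable def generator {d R q L : ℕ} [NeZero L] (H : Site L → BoxOp d R)
    (K : Site L → Fin q → BoxOp d R) : TorOp (d * d) L := ∑ u, term (lindblad (H u) (K u)) u

/-- The local Hamiltonians are Hermitian of norm at most one and the local jump operators satisfy
`∑ j, (K u j)^* K u j ≤ 1`. -/
def Admissible {d R q L : ℕ} (H : Site L → BoxOp d R) (K : Site L → Fin q → BoxOp d R) : Prop :=
  ∀ u, (H u).IsHermitian ∧ ∀ x : (Fin R × Fin R → Fin d) → ℂ,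
    normSq (H u *ᵥ x) ≤ normSq x ∧ ∑ j, normSq (K u j *ᵥ x) ≤ normSq x

/-- `Evolution R m T X Y`: the operator `X` evolves to `Y` in time `T` under a local Lindblad
dynamics of range `R` which is piecewise constant in time, with `m` pieces. -/
inductive Evolution {d L : ℕ} [NeZero L] (R : ℕ) : ℕ → ℝ → TorOp d L → TorOp d L → Prop
  | refl (X : TorOp d L) : Evolution R 0 0 X X
  | step {m : ℕ} {T : ℝ} {X Y Z : TorOp d L} (q : ℕ) (H : Site L → BoxOp d R)
      (K : Site L → Fin q → BoxOp d R) (s : ℝ) :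
      Evolution R m T X Y → Admissible H K → 0 ≤ s →
      vec Z = NormedSpace.exp ((s : ℂ) • generator H K) *ᵥ vec Y →
      Evolution R (m + 1) (T + s) X Z

/-- For all large `L` a local Lindblad dynamics, of range at most `C (log L)^j`, piecewise constant in
time with at most `exp (C (log L)^k)` pieces, drives the pure state of `χ L` in time at most
`C (log L)^k` to a state `ρ` whose fidelity `⟨Θ L, ρ (Θ L)⟩` with `Θ L` is at least
`exp (-C (log L)^k)`. -/
def FastlyDriven {d : ℕ} (χ Θ : ∀ L : ℕ, (Site L → Fin d) → ℂ) (j k : ℕ) (C : ℝ) : Prop :=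
  ∃ L₀ : ℕ, ∀ (L : ℕ) [NeZero L], L₀ ≤ L → ∃ (R m : ℕ) (T : ℝ) (ρ : TorOp d L),
    0 < R ∧ (R : ℝ) ≤ C * Real.log L ^ j ∧ (m : ℝ) ≤ Real.exp (C * Real.log L ^ k) ∧
      T ≤ C * Real.log L ^ k ∧ Evolution R m T (Matrix.vecMulVec (χ L) (star (χ L))) ρ ∧
      Real.exp (-(C * Real.log L ^ k)) ≤ ‖ip (Θ L) (ρ *ᵥ Θ L)‖

end Pool.Agent.Helper66.FT
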