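import Pool.Agent.Helper66.FT.Refine
import Pool.Agent.TH235.PP.Quant

/-!
Tensor networks for time dependent Lindblad evolutions.
-/

set_option autoImplicit false
set_option linter.unusedSectionVars false

open scoped BigOperators Matrix ComplexConjugate ComplexOrder ENNReal
open Finset Pool.Agent.TH235.PP Pool.Agent.Results.MP_953b23_mp.OverlapBoosting
  Pool.Agent.Helper99.PE Pool.Agent.Helper66.FD

namespace Pool.Agent.Helper66.FT

variable {L d R' : ℕ} [NeZero L]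

theorem card_Lm (D R : ℕ) : Fintype.card (Lm D R) = D ^ (R * R) * D ^ (R * R) := by
  simp [Lm]

theorem mul_add_one_le {M c y : ℝ} (hc : 1 ≤ c) (h : M + 1 ≤ y) : M * c + 1 ≤ y * c := by
  have h1 : (M + 1) * c ≤ y * c := mul_le_mul_of_nonneg_right h (by linarith)
  linarith

/-- the arithmetic of the time grid -/
theorem grid_num {N Tm mm ε : ℝ} (hN : 1 ≤ N) (hT : 0 ≤ Tm) (hm : 0 ≤ mm) (hε : 0 < ε)
    (hε1 : ε ≤ 1) {y0 : ℝ} (hy : y0 = ε / (56 * N ^ 2 * (8 * Tm + mm + 1))) :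
    0 < y0 ∧ N * y0 ≤ 1 / 4 ∧ mm * y0 ≤ 1 ∧ ∀ M : ℝ, 0 ≤ M → M * y0 ≤ 8 * Tm + mm * y0 →
      M * y0 ≤ 8 * Tm + 1 ∧ M * (N * y0) ^ 2 ≤ ε / 56 ∧
      M ≤ 56 * N ^ 2 * (8 * Tm + mm + 1) ^ 2 / ε := by
  have hS : 0 < 8 * Tm + mm + 1 := by positivity
  have hP : 0 < 56 * N ^ 2 * (8 * Tm + mm + 1) := by positivity
  have hy0 : 0 < y0 := by rw [hy]; positivity
  have hyP : y0 * (56 * N ^ 2 * (8 * Tm + mm + 1)) = ε := by
    rw [hy]; field_simp
  have hN2 : N ≤ N ^ 2 := by nlinarith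
  have hN3 : 1 ≤ N ^ 2 := by nlinarith
  have h1 : N * y0 ≤ 1 / 4 := by
    have h2 : N * y0 ≤ N ^ 2 * y0 := mul_le_mul_of_nonneg_right hN2 hy0.le
    have h3 : N ^ 2 * y0 * 1 ≤ N ^ 2 * y0 * (8 * Tm + mm + 1) :=
      mul_le_mul_of_nonneg_left (by linarith) (by positivity)
    nlinarith
  have h2 : mm * y0 ≤ 1 := by
    have h3 : mm * y0 ≤ (8 * Tm + mm + 1) * y0 := mul_le_mul_of_nonneg_right (by linarith) hy0.le
    have h4 : 1 * ((8 * Tm + mm + 1) * y0) ≤ N ^ 2 * ((8 * Tm + mm + 1) * y0) :=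
      mul_le_mul_of_nonneg_right hN3 (by positivity)
    nlinarith
  refine ⟨hy0, h1, h2, fun M hM hMy => ?_⟩
  have h3 : M * y0 ≤ 8 * Tm + 1 := by linarith
  have h3' : M * y0 ≤ 8 * Tm + mm + 1 := by linarith
  refine ⟨h3, ?_, ?_⟩
  · have h4 : M * (N * y0) ^ 2 = (M * y0) * (N ^ 2 * y0) := by ring
    rw [h4]
    have h5 : (M * y0) * (N ^ 2 * y0) ≤ (8 * Tm + mm + 1) * (N ^ 2 * y0) :=
      mul_le_mul_of_nonneg_right h3' (by positivity)
    linarith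
  · rw [le_div_iff₀ hε]
    have h4 : M * ε = (M * y0) * (56 * N ^ 2 * (8 * Tm + mm + 1)) := by rw [← hyP]; ring
    rw [h4]
    have h5 := mul_le_mul_of_nonneg_right h3' hP.le
    calc M * y0 * (56 * N ^ 2 * (8 * Tm + mm + 1)) ≤
        (8 * Tm + mm + 1) * (56 * N ^ 2 * (8 * Tm + mm + 1)) := h5
      _ = 56 * N ^ 2 * (8 * Tm + mm + 1) ^ 2 := by ring

/-- the approximation of an evolution -/
theorem evol_peps (hgk : GKSL) (hd : 0 < d) (hR : R' + 1 ≤ L) {Tm mm ε U ρ a0 : ℝ}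
    (hε : 0 < ε) (hε1 : ε ≤ 1) (hU0 : 0 ≤ U) (hT0 : 0 ≤ Tm)
    (hU : 57 * ((L ^ 2 : ℕ) : ℝ) ^ 2 * (8 * Tm + mm + 1) ^ 2 / ε *
      (((d * d) ^ ((R' + 1) * (R' + 1)) * (d * d) ^ ((R' + 1) * (R' + 1)) : ℕ) : ℝ) ≤ Real.exp U)
    (hρ : 13 * (8 * Tm + 1) + Real.log (72 * ((L ^ 2 : ℕ) : ℝ) / ε) + 1 ≤ ρ)
    {m : ℕ} {T : ℝ} {X Y : TorOp d L} (h : Evolution (R' + 1) m T X Y) (hT : T ≤ Tm)
    (hm : (m : ℝ) ≤ mm) (ha : a0 ≤ 1) (hX : ‖tv (vec X)‖ ≤ 1) {D0 : ℕ}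
    {x0 : (Site L → Fin (d * d)) → ℂ} (hx0 : IsPEPS D0 x0) (hx0X : ‖tv (x0 - vec X)‖ ≤ a0) :
    ‖tv (vec Y)‖ ≤ 1 ∧ ∃ (D : ℕ) (x : (Site L → Fin (d * d)) → ℂ),
      (D : ℝ) ≤ D0 * Real.exp (U * ρ * ((R' + 1 : ℕ) : ℝ) ^ 2) ∧ IsPEPS D x ∧
      ‖tv (x - vec Y)‖ ≤ a0 + 2 * ε := by
  classical
  obtain ⟨e⟩ : Nonempty (Fin (L ^ 2) ≃ Site L) := by
    rw [← Fintype.card_eq, Fintype.card_fin, card_site]
  have hL1 : 1 ≤ L := NeZero.one_le
  have hmm : 0 ≤ mm := (Nat.cast_nonneg m).trans hm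
  have hN1 : (1 : ℝ) ≤ ((L ^ 2 : ℕ) : ℝ) := by exact_mod_cast Nat.one_le_pow _ _ hL1
  obtain ⟨hy0, g1, g2, g3⟩ := grid_num hN1 hT0 hmm hε hε1
    (y0 := ε / (56 * ((L ^ 2 : ℕ) : ℝ) ^ 2 * (8 * Tm + mm + 1))) rfl
  set y0 : ℝ := ε / (56 * ((L ^ 2 : ℕ) : ℝ) ^ 2 * (8 * Tm + mm + 1)) with hy0def
  obtain ⟨-, M, p, hM, hp, hY⟩ := refine_evol hgk hR hy0 h
  have hMy : (M : ℝ) * y0 ≤ 8 * Tm + mm * y0 := by
    have := mul_le_mul_of_nonneg_right hm hy0.le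
    linarith
  obtain ⟨k1, k2, k3⟩ := g3 M (Nat.cast_nonneg M) hMy
  set N : ℝ := ((L ^ 2 : ℕ) : ℝ) with hN
  set r : ℕ := ⌈13 * (8 * Tm + 1) + Real.log (72 * N / ε)⌉₊ with hr
  have hrp : 13 * (8 * Tm + 1) + Real.log (72 * N / ε) ≤ r := Nat.le_ceil _
  have hlog : 0 ≤ Real.log (72 * N / ε) := by
    apply Real.log_nonneg
    rw [le_div_iff₀ hε]
    linarith only [hε1, hN1]
  have hexp : N * Real.exp (13 * (M * y0) - r) ≤ ε / 72 := by
    have h1 : Real.exp (13 * (M * y0) - r) ≤ Real.exp (-Real.log (72 * N / ε)) :=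
      Real.exp_le_exp.2 (by linarith)
    have h2 : Real.exp (-Real.log (72 * N / ε)) = ε / (72 * N) := by
      rw [Real.exp_neg, Real.exp_log (by positivity), inv_div]
    rw [h2] at h1
    calc N * Real.exp (13 * (M * y0) - r) ≤ N * (ε / (72 * N)) :=
          mul_le_mul_of_nonneg_left h1 (by linarith)
      _ = ε / 72 := by field_simp
  have hb := grid_bound hd (fun t => (p t).1) (fun t => (p t).2) (fun t => (hp t).2.2)
    (fun t => (hp t).1) (fun t => (hp t).2.1) hy0.le r e g1 (by rw [← hN]; linarith)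
    (hexp.trans (by linarith))
  rw [← hN] at hb
  set E : TorOp (d * d) L := op fun t => NormedSpace.exp (((p t).1 : ℂ) • tot (p t).2) with hEdef
  set K : TorOp (d * d) L := KTt (fun t b => (((p t).1 : ℝ) : ℂ) • term ((p t).2 (e b)) (e b)) r
    with hKdef
  have hKE : ‖act d L K - act d L E‖ ≤ ε := hb.trans (by linarith)
  have := nontrivial_TV (L := L) hd
  have hE : ‖act d L E‖ ≤ 1 := by
    rw [hEdef, op_map']
    refine (norm_op_le _ (fun _ => (1 : ℝ)) fun t => ?_).trans (by simp)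
    exact act_norm fun b hb => dual_markov (hp t).2.2.2 (hp t).1 hb
  refine ⟨?_, ?_⟩
  · rw [hY, ← act_apply]
    refine (ContinuousLinearMap.le_opNorm _ _).trans ?_
    exact mul_le_one₀ hE (norm_nonneg _) hX
  · obtain ⟨A0, rfl⟩ := hx0
    obtain ⟨A1, hA1⟩ := peps_applyt A0 (fun t => (((p t).1 : ℝ) : ℂ)) (fun t => (p t).2) e r
    refine ⟨Fintype.card (Fin D0 × (Fin (R' + 1) × Fin (R' + 1) → Lab (d * d) (R' + 1) M r)),
      K *ᵥ contract A0, ?_, ?_, ?_⟩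
    · refine card_bd D0 M r U ρ hU0 ?_ ?_
      · rw [card_Lm]
        set c : ℕ := (d * d) ^ ((R' + 1) * (R' + 1)) * (d * d) ^ ((R' + 1) * (R' + 1)) with hc
        have hc1 : 1 ≤ c := Nat.mul_pos (Nat.pow_pos (Nat.mul_pos hd hd))
          (Nat.pow_pos (Nat.mul_pos hd hd))
        have hc1' : (1 : ℝ) ≤ (c : ℝ) := by exact_mod_cast hc1
        refine le_trans ?_ hU
        push_cast
        have h9 : (1 : ℝ) ≤ N ^ 2 * (8 * Tm + mm + 1) ^ 2 / ε := by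
          rw [le_div_iff₀ hε, one_mul]
          have h10 : 1 ≤ N ^ 2 := one_le_pow₀ hN1
          have h11 : 1 ≤ (8 * Tm + mm + 1) ^ 2 := one_le_pow₀ (by linarith)
          exact hε1.trans (one_le_mul_of_one_le_of_one_le h10 h11)
        have h10 : (M : ℝ) + 1 ≤ 57 * N ^ 2 * (8 * Tm + mm + 1) ^ 2 / ε := by
          have h11 : 57 * N ^ 2 * (8 * Tm + mm + 1) ^ 2 / ε =
            56 * N ^ 2 * (8 * Tm + mm + 1) ^ 2 / ε + N ^ 2 * (8 * Tm + mm + 1) ^ 2 / ε := by ring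
          rw [h11]
          linarith
        exact mul_add_one_le hc1' h10
      · have h8 : (r : ℝ) < 13 * (8 * Tm + 1) + Real.log (72 * N / ε) + 1 :=
          Nat.ceil_lt_add_one (by positivity)
        linarith
    · rw [hKdef]
      have h1 : KTt (fun t b => (((p t).1 : ℝ) : ℂ) • term ((p t).2 (e b)) (e b)) r *ᵥ
          contract A0 = contract A1 := hA1
      rw [h1]
      exact isPEPS_contract A1
    · have h1 : tv (K *ᵥ contract A0 - vec Y) = (act d L K - act d L E) (tv (contract A0)) +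
          act d L E (tv (contract A0 - vec X)) := by
        rw [hY, tv_sub, tv_sub, ← act_apply, ← act_apply, _root_.sub_apply, map_sub]
        abel
      have h2 : ‖tv (contract A0)‖ ≤ 2 := by
        have h3 : tv (contract A0) = tv (contract A0 - vec X) + tv (vec X) := by
          rw [tv_sub]; abel
        rw [h3]
        refine (norm_add_le _ _).trans ?_
        linarith
      rw [h1]
      refine (norm_add_le _ _).trans ?_
      have h3 : ‖(act d L K - act d L E) (tv (contract A0))‖ ≤ ε * 2 :=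
        (ContinuousLinearMap.le_opNorm _ _).trans (mul_le_mul hKE h2 (norm_nonneg _) hε.le)
      have h4 : ‖act d L E (tv (contract A0 - vec X))‖ ≤ 1 * a0 :=
        (ContinuousLinearMap.le_opNorm _ _).trans
          (mul_le_mul hE hx0X (norm_nonneg _) zero_le_one)
      linarith

end Pool.Agent.Helper66.FT
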