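import Pool.Agent.Helper66.FT.Defs
import Pool.Agent.Helper66.FD.Nrm
import Pool.Agent.Helper66.FD.Stm
import Pool.Agent.TH235.PQ.Ops

/-!
The local Lindblad generators: they are in Lindblad form on the torus, and their terms are bounded.
-/

set_option autoImplicit false
set_option linter.unusedSectionVars false

open scoped BigOperators Matrix ComplexConjugate ComplexOrder
open Finset Pool.Agent.TH235.PP Pool.Agent.Results.MP_953b23_mp.OverlapBoosting
  Pool.Agent.Helper99.PE Pool.Agent.Helper66.FD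

namespace Pool.Agent.Helper66.FT

variable {L d R : ℕ} [NeZero L]

theorem term_sop_apply (A B : BoxOp d R) (u : Site L) (s t s' t' : Site L → Fin d) :
    term (sop A B) u (fun x => finProdFinEquiv (s x, t x)) (fun x => finProdFinEquiv (s' x, t' x)) =
      term A u s s' * conj (term B u t t') := by
  classical
  have hiff : (∀ w, (∀ x : Fin R × Fin R, sh u x ≠ w) →
      (finProdFinEquiv (s w, t w) : Fin (d * d)) = finProdFinEquiv (s' w, t' w)) ↔
      (∀ w, (∀ x : Fin R × Fin R, sh u x ≠ w) → s w = s' w) ∧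
      (∀ w, (∀ x : Fin R × Fin R, sh u x ≠ w) → t w = t' w) := by
    simp only [EmbeddingLike.apply_eq_iff_eq, Prod.mk.injEq]
    exact ⟨fun h => ⟨fun w hw => (h w hw).1, fun w hw => (h w hw).2⟩,
      fun h w hw => ⟨h.1 w hw, h.2 w hw⟩⟩
  by_cases h1 : ∀ w, (∀ x : Fin R × Fin R, sh u x ≠ w) → s w = s' w
  · by_cases h2 : ∀ w, (∀ x : Fin R × Fin R, sh u x ≠ w) → t w = t' w
    · rw [term_pos (hiff.2 ⟨h1, h2⟩), term_pos h1, term_pos h2]
      unfold sop
      simp only [Equiv.symm_apply_apply]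
    · rw [term_neg (fun h => h2 (hiff.1 h).2), term_neg h2]
      simp
  · rw [term_neg (fun h => h1 (hiff.1 h).1), term_neg h1]
    simp

theorem term_sop_vec (A B : BoxOp d R) (u : Site L) (X : TorOp d L) :
    term (sop A B) u *ᵥ vec X = vec (term A u * X * (term B u)ᴴ) := by
  classical
  apply ext_double
  intro s t
  unfold Matrix.mulVec dotProduct
  rw [sum_stack finProdFinEquiv]
  simp only [term_sop_apply]
  simp only [vec, Equiv.symm_apply_apply]
  rw [Matrix.mul_apply]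
  refine Finset.sum_congr rfl fun t' _ => ?_
  rw [Matrix.mul_apply, Finset.sum_mul]
  refine Finset.sum_congr rfl fun s' _ => ?_
  rw [Matrix.conjTranspose_apply, Complex.star_def]
  ring

theorem vec_add (X Y : TorOp d L) : vec (X + Y) = vec X + vec Y := rfl

theorem vec_sum {ι : Type*} (S : Finset ι) (X : ι → TorOp d L) :
    vec (∑ i ∈ S, X i) = ∑ i ∈ S, vec (X i) := by
  classical
  induction S using Finset.induction_on with
  | empty => rw [Finset.sum_empty, Finset.sum_empty]; rfl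
  | insert a s ha ih => rw [Finset.sum_insert ha, Finset.sum_insert ha, vec_add, ih]

theorem term_conjTranspose (A : BoxOp d R) (u : Site L) : term Aᴴ u = (term A u)ᴴ := by
  classical
  ext s t
  rw [Matrix.conjTranspose_apply]
  by_cases hc : ∀ w, (∀ x : Fin R × Fin R, sh u x ≠ w) → s w = t w
  · rw [term_pos hc, term_pos (fun w hw => (hc w hw).symm), Matrix.conjTranspose_apply]
  · rw [term_neg hc, term_neg (fun h => hc fun w hw => (h w hw).symm), star_zero]

theorem normSq_term_sum (hR : R ≤ L) {q : ℕ} {K : Fin q → BoxOp d R}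
    (h : ∀ x : (Fin R × Fin R → Fin d) → ℂ, ∑ j, normSq (K j *ᵥ x) ≤ normSq x)
    (u : Site L) (v : (Site L → Fin d) → ℂ) :
    ∑ j, normSq (term (K j) u *ᵥ v) ≤ normSq v := by
  classical
  rcases isEmpty_or_nonempty (Fin R × Fin R → Fin d) with he | hne
  · have h0 : IsEmpty (Site L → Fin d) := ⟨fun s => he.false fun x => s (sh u x)⟩
    unfold normSq
    simp
  · have hc : (0 : ℝ) < (Fintype.card (Fin R × Fin R → Fin d) : ℝ) := by
      exact_mod_cast Fintype.card_pos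
    refine le_of_mul_le_mul_left ?_ hc
    rw [Finset.mul_sum]
    simp only [normSq_term hR]
    rw [← normSq_box hR u v, Finset.sum_comm]
    exact Finset.sum_le_sum fun s _ => h _

theorem normSq_term_one (hR : R ≤ L) {H : BoxOp d R}
    (h : ∀ x : (Fin R × Fin R → Fin d) → ℂ, normSq (H *ᵥ x) ≤ normSq x)
    (u : Site L) (v : (Site L → Fin d) → ℂ) : normSq (term H u *ᵥ v) ≤ normSq v := by
  have h1 := normSq_term_sum (q := 1) (K := fun _ => H) hR (fun x => by simpa using h x) u v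
  simpa using h1

/-- if `∑ j, (K j)^* K j ≤ 1` then the operator `∑ j, (K j)^* K j` does not increase the norm -/
theorem nr_gram {n : Type*} [Fintype n] [DecidableEq n] {q : ℕ} {K : Fin q → Matrix n n ℂ}
    (h : ∀ x : n → ℂ, ∑ j, normSq (K j *ᵥ x) ≤ normSq x) (x : n → ℂ) :
    nr ((∑ j, (K j)ᴴ * K j) *ᵥ x) ≤ nr x := by
  have h0 : ∀ z : n → ℂ, ip z ((∑ j, (K j)ᴴ * K j) *ᵥ x) = ∑ j, ip (K j *ᵥ z) (K j *ᵥ x) := by
    intro z
    have h2 : ∀ j, ip z (((K j)ᴴ * K j) *ᵥ x) = ip (K j *ᵥ z) (K j *ᵥ x) := by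
      intro j
      have h3 := Matrix.star_mulVec (K j) z
      have h4 : star (K j *ᵥ z) ⬝ᵥ (K j *ᵥ x) = star z ⬝ᵥ (((K j)ᴴ * K j) *ᵥ x) := by
        rw [h3, ← Matrix.dotProduct_mulVec, Matrix.mulVec_mulVec]
      exact h4.symm
    simp only [← h2]
    rw [Matrix.sum_mulVec]
    unfold ip
    simp only [Finset.sum_apply, Finset.mul_sum]
    rw [Finset.sum_comm]
  set y : n → ℂ := (∑ j, (K j)ᴴ * K j) *ᵥ x with hy
  have h1 : ip y y = ∑ j, ip (K j *ᵥ y) (K j *ᵥ x) := h0 y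
  have h2 : nr y ^ 2 ≤ (1 / 2) * (nr y ^ 2 + nr x ^ 2) := by
    have h3 : ‖ip y y‖ = nr y ^ 2 := by
      have h4 : ip y y = ((nr y ^ 2 : ℝ) : ℂ) := by
        rw [nr_sq]
        unfold ip normSq
        rw [Complex.ofReal_sum]
        refine Finset.sum_congr rfl fun s _ => ?_
        rw [← Complex.normSq_eq_conj_mul_self, Complex.normSq_eq_norm_sq]
      rw [h4, Complex.norm_real, Real.norm_of_nonneg (by positivity)]
    refine le_of_eq_of_le (h3.symm.trans (congrArg norm h1)) ?_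
    refine (norm_sum_le _ _).trans ?_
    calc ∑ j, ‖ip (K j *ᵥ y) (K j *ᵥ x)‖
        ≤ ∑ j, (1 / 2) * (normSq (K j *ᵥ y) + normSq (K j *ᵥ x)) := by
          refine Finset.sum_le_sum fun j _ => ?_
          refine (ip_le _ _).trans ?_
          rw [← nr_sq, ← nr_sq]
          nlinarith [sq_nonneg (nr (K j *ᵥ y) - nr (K j *ᵥ x))]
      _ = (1 / 2) * (∑ j, normSq (K j *ᵥ y) + ∑ j, normSq (K j *ᵥ x)) := by
          rw [← Finset.mul_sum, Finset.sum_add_distrib]
      _ ≤ (1 / 2) * (nr y ^ 2 + nr x ^ 2) := by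
          have h5 := h y
          have h6 := h x
          rw [← nr_sq] at h5 h6
          linarith
  have h3 : nr y ^ 2 ≤ nr x ^ 2 := by linarith
  exact (pow_le_pow_iff_left₀ (nr_nonneg _) (nr_nonneg _) two_ne_zero).1 h3

section lind

variable {R' q : ℕ}

theorem term_lind (H : BoxOp d (R' + 1)) (K : Fin q → BoxOp d (R' + 1)) (u : Site L) :
    term (lindblad H K) u = term (sop (drift H K) 1) u + term (sop 1 (drift H K)) u +
      ∑ j, term (sop (K j) (K j)) u := by
  unfold lindblad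
  rw [Pool.Agent.TH235.PQ.term_add, Pool.Agent.TH235.PQ.term_add, term_sum]

theorem term_lind_vec (H : BoxOp d (R' + 1)) (K : Fin q → BoxOp d (R' + 1)) (u : Site L)
    (X : TorOp d L) :
    term (lindblad H K) u *ᵥ vec X = vec (term (drift H K) u * X + X * (term (drift H K) u)ᴴ +
      ∑ j, term (K j) u * X * (term (K j) u)ᴴ) := by
  rw [term_lind, Matrix.add_mulVec, Matrix.add_mulVec, Matrix.sum_mulVec, vec_add, vec_add,
    vec_sum, term_sop_vec, term_sop_vec]
  simp only [term_sop_vec]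
  rw [Pool.Agent.TH235.PQ.term_one, Matrix.conjTranspose_one, Matrix.mul_one, Matrix.one_mul]

theorem drift_eq {H : BoxOp d (R' + 1)} (hH : H.IsHermitian) (K : Fin q → BoxOp d (R' + 1)) :
    drift H K + (drift H K)ᴴ + ∑ j, (K j)ᴴ * K j = 0 := by
  have h1 : (∑ j, (K j)ᴴ * K j)ᴴ = ∑ j, (K j)ᴴ * K j := by
    rw [Matrix.conjTranspose_sum]
    refine Finset.sum_congr rfl fun j _ => ?_
    rw [Matrix.conjTranspose_mul, Matrix.conjTranspose_conjTranspose]
  unfold drift
  rw [Matrix.conjTranspose_sub, Matrix.conjTranspose_neg, Matrix.conjTranspose_smul,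
    Matrix.conjTranspose_smul, hH.eq, h1]
  generalize ∑ j, (K j)ᴴ * K j = P
  have h2 : star Complex.I = -Complex.I := Complex.conj_I
  have h3 : star (1 / 2 : ℂ) = 1 / 2 := by simp
  rw [h2, h3, neg_smul, neg_neg]
  have h4 : P = (1 / 2 : ℂ) • P + (1 / 2 : ℂ) • P := by
    rw [← add_smul]; norm_num
  nth_rewrite 3 [h4]
  abel

theorem gen_eq (hR : R' + 1 ≤ L) {H : Site L → BoxOp d (R' + 1)}
    (hH : ∀ u, (H u).IsHermitian) (K : Site L → Fin q → BoxOp d (R' + 1)) :
    (∑ u, term (drift (H u) (K u)) u) + (∑ u, term (drift (H u) (K u)) u)ᴴ +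
      ∑ p : Site L × Fin q, (term (K p.1 p.2) p.1)ᴴ * term (K p.1 p.2) p.1 = 0 := by
  have hp : ∑ p : Site L × Fin q, (term (K p.1 p.2) p.1)ᴴ * term (K p.1 p.2) p.1 =
      ∑ u : Site L, ∑ j : Fin q, (term (K u j) u)ᴴ * term (K u j) u :=
    Fintype.sum_prod_type _
  rw [hp, Matrix.conjTranspose_sum, ← Finset.sum_add_distrib, ← Finset.sum_add_distrib]
  refine Finset.sum_eq_zero fun u _ => ?_
  have h1 : ∑ j, (term (K u j) u)ᴴ * term (K u j) u = term (∑ j, (K u j)ᴴ * K u j) u := by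
    rw [term_sum]
    refine Finset.sum_congr rfl fun j _ => ?_
    rw [← term_conjTranspose, Pool.Agent.TH235.PQ.term_mul hR]
  rw [h1, ← term_conjTranspose, ← Pool.Agent.TH235.PQ.term_add, ← Pool.Agent.TH235.PQ.term_add,
    drift_eq (hH u)]
  have h2 := Pool.Agent.TH235.PQ.term_smul (0 : ℂ) (0 : BoxOp d (R' + 1)) u
  rwa [zero_smul, zero_smul] at h2

theorem gen_vec (H : Site L → BoxOp d (R' + 1)) (K : Site L → Fin q → BoxOp d (R' + 1))
    (X : TorOp d L) :
    generator H K *ᵥ vec X = vec ((∑ u, term (drift (H u) (K u)) u) * X +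
      X * (∑ u, term (drift (H u) (K u)) u)ᴴ +
      ∑ p : Site L × Fin q, term (K p.1 p.2) p.1 * X * (term (K p.1 p.2) p.1)ᴴ) := by
  have hp : ∑ p : Site L × Fin q, term (K p.1 p.2) p.1 * X * (term (K p.1 p.2) p.1)ᴴ =
      ∑ u : Site L, ∑ j : Fin q, term (K u j) u * X * (term (K u j) u)ᴴ :=
    Fintype.sum_prod_type _
  unfold generator
  rw [Matrix.sum_mulVec]
  simp only [term_lind_vec]
  rw [← vec_sum, Matrix.conjTranspose_sum, Finset.sum_mul, Finset.mul_sum, hp,
    ← Finset.sum_add_distrib, ← Finset.sum_add_distrib]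

theorem gen_markov (hg : GKSL) (hR : R' + 1 ≤ L) {H : Site L → BoxOp d (R' + 1)}
    {K : Site L → Fin q → BoxOp d (R' + 1)} (hA : Admissible H K) : IsMarkov (generator H K) :=
  hg d L (Site L × Fin q) _ (fun p => term (K p.1 p.2) p.1) _
    (gen_eq hR (fun u => (hA u).1) K) (gen_vec H K)

theorem nr_of_normSq {n : Type*} [Fintype n] [DecidableEq n] {x y : n → ℂ}
    (h : normSq x ≤ normSq y) : nr x ≤ nr y := by
  rw [← nr_sq, ← nr_sq] at h
  exact (pow_le_pow_iff_left₀ (nr_nonneg _) (nr_nonneg _) two_ne_zero).1 h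

theorem nr_drift (hR : R' + 1 ≤ L) {H : BoxOp d (R' + 1)} {K : Fin q → BoxOp d (R' + 1)}
    (hA : ∀ x : (Fin (R' + 1) × Fin (R' + 1) → Fin d) → ℂ,
      normSq (H *ᵥ x) ≤ normSq x ∧ ∑ j, normSq (K j *ᵥ x) ≤ normSq x)
    (u : Site L) (v : (Site L → Fin d) → ℂ) :
    nr (term (drift H K) u *ᵥ v) ≤ 3 / 2 * nr v := by
  classical
  have h1 : term (drift H K) u = (-Complex.I) • term H u +
      (-(1 / 2) : ℂ) • ∑ j, (term (K j) u)ᴴ * term (K j) u := by
    have h2 : drift H K = (-Complex.I) • H + (-(1 / 2) : ℂ) • ∑ j, (K j)ᴴ * K j := by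
      unfold drift
      rw [neg_smul, neg_smul, sub_eq_add_neg]
    rw [h2, Pool.Agent.TH235.PQ.term_add, Pool.Agent.TH235.PQ.term_smul,
      Pool.Agent.TH235.PQ.term_smul, term_sum]
    congr 2
    refine Finset.sum_congr rfl fun j _ => ?_
    rw [← term_conjTranspose, Pool.Agent.TH235.PQ.term_mul hR]
  rw [h1, Matrix.add_mulVec, Matrix.smul_mulVec, Matrix.smul_mulVec]
  refine (nr_add _ _).trans ?_
  rw [nr_smul, nr_smul]
  have h3 : nr (term H u *ᵥ v) ≤ nr v :=
    nr_of_normSq (normSq_term_one hR (fun x => (hA x).1) u v)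
  have h4 := nr_gram (K := fun j => term (K j) u)
    (fun x => normSq_term_sum hR (fun x => (hA x).2) u x) v
  have h5 : ‖-Complex.I‖ = 1 := by simp
  have h6 : ‖(-(1 / 2) : ℂ)‖ = 1 / 2 := by simp
  rw [h5, h6, one_mul]
  linarith

theorem dual_lind (hR : R' + 1 ≤ L) {H : BoxOp d (R' + 1)} {K : Fin q → BoxOp d (R' + 1)}
    (hA : ∀ x : (Fin (R' + 1) × Fin (R' + 1) → Fin d) → ℂ,
      normSq (H *ᵥ x) ≤ normSq x ∧ ∑ j, normSq (K j *ᵥ x) ≤ normSq x)
    (u : Site L) {b : (Site L → Fin (d * d)) → ℂ} (hb : b ∈ Dual d L) :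
    b ᵥ* term ((1 / 8 : ℂ) • lindblad H K) u ∈ Dual d L := by
  intro v
  rw [← Matrix.dotProduct_mulVec, Pool.Agent.TH235.PQ.term_smul, Matrix.smul_mulVec,
    dotProduct_smul, term_lind, Matrix.add_mulVec, Matrix.add_mulVec, Matrix.sum_mulVec,
    dotProduct_add, dotProduct_add, dotProduct_sum]
  simp only [term_sop_rk]
  rw [Pool.Agent.TH235.PQ.term_one, Matrix.one_mulVec, norm_smul]
  have h1 := nr_drift hR hA u v
  have hv := nr_nonneg v
  have h2 : ‖b ⬝ᵥ rk (term (drift H K) u *ᵥ v) v‖ ≤ 3 * normSq v := by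
    refine ((le_norm _ hb).trans (norm_rk_nr _ _)).trans ?_
    rw [← nr_sq]
    nlinarith [mul_le_mul_of_nonneg_right h1 hv]
  have h3 : ‖b ⬝ᵥ rk v (term (drift H K) u *ᵥ v)‖ ≤ 3 * normSq v := by
    refine ((le_norm _ hb).trans (norm_rk_nr _ _)).trans ?_
    rw [← nr_sq]
    nlinarith [mul_le_mul_of_nonneg_right h1 hv]
  have h4 : ‖∑ j, b ⬝ᵥ rk (term (K j) u *ᵥ v) (term (K j) u *ᵥ v)‖ ≤ normSq v :=
    (norm_sum_le _ _).trans ((Finset.sum_le_sum fun j _ => hb _).trans
      (normSq_term_sum hR (fun x => (hA x).2) u v))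
  have h5 : ‖(1 / 8 : ℂ)‖ = 1 / 8 := by simp
  have h6 := norm_add₃_le (a := b ⬝ᵥ rk (term (drift H K) u *ᵥ v) v)
    (b := b ⬝ᵥ rk v (term (drift H K) u *ᵥ v))
    (c := ∑ j, b ⬝ᵥ rk (term (K j) u *ᵥ v) (term (K j) u *ᵥ v))
  rw [h5]
  have h7 : 0 ≤ normSq v := by unfold normSq; positivity
  linarith

end lind

end Pool.Agent.Helper66.FT
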