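import Pool.Agent.Helper66.FD.Num

/-! Elementary estimates. -/

set_option autoImplicit false

namespace Pool.Agent.Helper66.FT

open Pool.Agent.Helper66.FD

theorem exp_five_ge : (100 : ℝ) ≤ Real.exp 5 := by
  have h1 : (2.7 : ℝ) ≤ Real.exp 1 := by linarith [Real.exp_one_gt_d9]
  have h2 : Real.exp 5 = Real.exp 1 ^ 5 := by
    rw [← Real.exp_nat_mul]; norm_num
  rw [h2]
  calc (100 : ℝ) ≤ 2.7 ^ 5 := by norm_num
    _ ≤ Real.exp 1 ^ 5 := pow_le_pow_left₀ (by norm_num) h1 5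

/-- the total error -/
theorem num_err {C0 l : ℝ} (hl : 1 ≤ l) :
    6 * Real.exp (-((C0 + 4) * l)) + 2 * Real.exp (-(C0 * l + 3)) ≤
      Real.exp (-(C0 * l)) / 2 := by
  have h1 : Real.exp (-((C0 + 4) * l)) = Real.exp (-(C0 * l)) * Real.exp (-(4 * l)) := by
    rw [← Real.exp_add]; congr 1; ring
  have h2 : Real.exp (-(4 * l)) ≤ 1 / 30 := by
    have h3 : Real.exp (-(4 * l)) ≤ Real.exp (-4) := Real.exp_le_exp.2 (by linarith)
    refine h3.trans ?_
    rw [Real.exp_neg, one_div]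
    exact inv_anti₀ (by norm_num) exp_four_ge
  have h4 : Real.exp (-(C0 * l + 3)) = Real.exp (-(C0 * l)) * Real.exp (-3) := by
    rw [← Real.exp_add]; congr 1; ring
  rw [h1, h4]
  set x := Real.exp (-(C0 * l)) with hx
  have hx0 : 0 < x := Real.exp_pos _
  have h5 := mul_le_mul_of_nonneg_left exp_neg_three_le hx0.le
  have h6 := mul_le_mul_of_nonneg_left h2 hx0.le
  linarith

/-- the size of the labels -/
theorem num_U {C0 l L v w : ℝ} {d R : ℕ} (hC0 : 1 ≤ C0) (hl : 1 ≤ l) (hL : 1 ≤ L)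
    (hlog : Real.log L ≤ l) (hlv : l ≤ v) (hwv : w ^ 2 ≤ v) (hR : (R : ℝ) ≤ C0 * w) :
    57 * (L ^ 2) ^ 2 * (8 * (C0 * l) + Real.exp (C0 * l) + 1) ^ 2 / Real.exp (-(C0 * l + 3)) *
      (((d * d) ^ (R * R) * (d * d) ^ (R * R) : ℕ) : ℝ) ≤
      Real.exp ((17 + 3 * C0 + 4 * d * C0 ^ 2) * v) := by
  have hL4 : (L ^ 2) ^ 2 ≤ Real.exp (4 * l) := by
    have h4 : L ≤ Real.exp l := by
      rw [← Real.log_le_iff_le_exp (by linarith)]
      exact hlog
    calc (L ^ 2) ^ 2 = L ^ 4 := by ring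
      _ ≤ (Real.exp l) ^ 4 := pow_le_pow_left₀ (by linarith) h4 4
      _ = Real.exp (4 * l) := by rw [← Real.exp_nat_mul]; norm_num
  have h2 : (8 * (C0 * l) + Real.exp (C0 * l) + 1) ^ 2 ≤ Real.exp 5 * Real.exp (2 * (C0 * l)) := by
    have h1 : 8 * (C0 * l) + Real.exp (C0 * l) + 1 ≤ 10 * Real.exp (C0 * l) := by
      have h3 := Real.add_one_le_exp (C0 * l)
      have h4 : 0 ≤ C0 * l := by positivity
      linarith
    have h0 : 0 ≤ 8 * (C0 * l) + Real.exp (C0 * l) + 1 := by positivity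
    calc (8 * (C0 * l) + Real.exp (C0 * l) + 1) ^ 2 ≤ (10 * Real.exp (C0 * l)) ^ 2 :=
          pow_le_pow_left₀ h0 h1 2
      _ = 100 * Real.exp (C0 * l) ^ 2 := by ring
      _ ≤ Real.exp 5 * Real.exp (C0 * l) ^ 2 :=
          mul_le_mul_of_nonneg_right exp_five_ge (by positivity)
      _ = Real.exp 5 * Real.exp (2 * (C0 * l)) := by
          rw [← Real.exp_nat_mul]; norm_num
  have h3 : (((d * d) ^ (R * R) * (d * d) ^ (R * R) : ℕ) : ℝ) ≤ Real.exp (4 * d * (C0 * w) ^ 2) := by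
    have h4 : (d : ℝ) ≤ Real.exp d := by linarith [Real.add_one_le_exp (d : ℝ)]
    have h5 : (((d * d) ^ (R * R) * (d * d) ^ (R * R) : ℕ) : ℝ) = (d : ℝ) ^ (4 * (R * R)) := by
      push_cast
      ring
    rw [h5]
    calc (d : ℝ) ^ (4 * (R * R)) ≤ (Real.exp d) ^ (4 * (R * R)) :=
          pow_le_pow_left₀ (Nat.cast_nonneg _) h4 _
      _ = Real.exp (((4 * (R * R) : ℕ) : ℝ) * d) := (Real.exp_nat_mul _ _).symm
      _ ≤ Real.exp (4 * d * (C0 * w) ^ 2) := by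
          apply Real.exp_le_exp.2
          push_cast
          have h6 : (R : ℝ) * R ≤ (C0 * w) ^ 2 := by
            have h7 := pow_le_pow_left₀ (Nat.cast_nonneg R) hR 2
            linarith [sq (R : ℝ)]
          have h8 := mul_le_mul_of_nonneg_left h6 (by positivity : (0 : ℝ) ≤ 4 * d)
          linarith
  rw [div_eq_mul_inv, ← Real.exp_neg, neg_neg]
  have h57 : (57 : ℝ) ≤ Real.exp 5 := by linarith [exp_five_ge]
  calc 57 * (L ^ 2) ^ 2 * (8 * (C0 * l) + Real.exp (C0 * l) + 1) ^ 2 * Real.exp (C0 * l + 3) *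
        (((d * d) ^ (R * R) * (d * d) ^ (R * R) : ℕ) : ℝ)
      ≤ Real.exp 5 * Real.exp (4 * l) * (Real.exp 5 * Real.exp (2 * (C0 * l))) *
        Real.exp (C0 * l + 3) * Real.exp (4 * d * (C0 * w) ^ 2) := by
        refine mul_le_mul (mul_le_mul_of_nonneg_right (mul_le_mul (mul_le_mul h57 hL4
          (by positivity) (Real.exp_pos _).le) h2 (by positivity) (by positivity))
          (Real.exp_pos _).le) h3 (Nat.cast_nonneg _) (by positivity)
    _ = Real.exp (5 + 4 * l + (5 + 2 * (C0 * l)) + (C0 * l + 3) + 4 * d * (C0 * w) ^ 2) := by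
        simp only [← Real.exp_add]
    _ ≤ _ := by
        apply Real.exp_le_exp.2
        have h9 : C0 * l ≤ C0 * v := mul_le_mul_of_nonneg_left hlv (by linarith)
        have h11 : 4 * (d : ℝ) * (C0 * w) ^ 2 = 4 * d * C0 ^ 2 * w ^ 2 := by ring
        have h12 : 4 * (d : ℝ) * C0 ^ 2 * w ^ 2 ≤ 4 * d * C0 ^ 2 * v :=
          mul_le_mul_of_nonneg_left hwv (by positivity)
        rw [h11]
        linarith

/-- the number of uses of a term -/
theorem num_rho {C0 l L : ℝ} (hl : 1 ≤ l) (hL : 1 ≤ L) (hlog : Real.log L ≤ l) :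
    13 * (8 * (C0 * l) + 1) + Real.log (72 * L ^ 2 / Real.exp (-(C0 * l + 3))) + 1 ≤
      (105 * C0 + 24) * l := by
  have h1 : Real.log (72 * L ^ 2 / Real.exp (-(C0 * l + 3))) =
      Real.log 72 + 2 * Real.log L + (C0 * l + 3) := by
    rw [div_eq_mul_inv, ← Real.exp_neg, neg_neg, Real.log_mul (by positivity) (Real.exp_pos _).ne',
      Real.log_mul (by norm_num) (by positivity), Real.log_exp, Real.log_pow]
    push_cast
    ring
  have h2 : Real.log 72 ≤ 5 := by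
    rw [← Real.log_exp 5]
    exact Real.log_le_log (by norm_num) (by linarith [exp_five_ge])
  rw [h1]
  linarith

/-- the total size of the bond dimension -/
theorem num_bond {C0 l v w K1 K2 R : ℝ} (hl : 0 ≤ l) (hv : 0 ≤ v)
    (hK1 : 0 ≤ K1) (hK2 : 0 ≤ K2) (hR0 : 0 ≤ R) (hR : R ≤ C0 * w) :
    K1 * v * (K2 * l) * R ^ 2 ≤ K1 * K2 * C0 ^ 2 * (v * l * w ^ 2) := by
  have h1 : R ^ 2 ≤ (C0 * w) ^ 2 := pow_le_pow_left₀ hR0 hR 2
  calc K1 * v * (K2 * l) * R ^ 2 ≤ K1 * v * (K2 * l) * (C0 * w) ^ 2 :=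
        mul_le_mul_of_nonneg_left h1 (by positivity)
    _ = K1 * K2 * C0 ^ 2 * (v * l * w ^ 2) := by ring

end Pool.Agent.Helper66.FT
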