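import Pool.Agent.Helper66.FT.Step

/-!
Refinement of a piecewise constant evolution.
-/

set_option autoImplicit false
set_option linter.unusedSectionVars false

open scoped BigOperators Matrix ComplexConjugate ComplexOrder ENNReal
open Finset Pool.Agent.TH235.PP Pool.Agent.Results.MP_953b23_mp.OverlapBoosting
  Pool.Agent.Helper99.PE Pool.Agent.Helper66.FD

namespace Pool.Agent.Helper66.FT

theorem op_append {R : Type*} [Ring R] {n m : ℕ} (a : Fin n → R) (b : Fin m → R) :
    op (Fin.append a b) = op a * op b := by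
  unfold op
  rw [List.ofFn_fin_append, List.prod_append]

theorem append_comp {α β : Type*} {n m : ℕ} (f : α → β) (a : Fin n → α) (b : Fin m → α) :
    (fun t => f (Fin.append a b t)) = Fin.append (fun t => f (a t)) (fun t => f (b t)) := by
  funext t
  refine Fin.addCases (fun i => ?_) (fun i => ?_) t
  · simp
  · simp

variable {L d R' : ℕ} [NeZero L]

theorem markov_smul {G : TorOp (d * d) L} (hG : IsMarkov G) {c : ℝ} (hc : 0 ≤ c) :
    IsMarkov ((c : ℂ) • G) := by
  intro s hs X hX
  obtain ⟨Y, h1, h2, h3⟩ := hG (s * c) (mul_nonneg hs hc) X hX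
  refine ⟨Y, h1, h2, ?_⟩
  rw [h3, smul_smul]
  push_cast
  rfl

theorem tot_smul {q : ℕ} (H : Site L → BoxOp d (R' + 1)) (K : Site L → Fin q → BoxOp d (R' + 1)) :
    tot (fun u => (1 / 8 : ℂ) • lindblad (H u) (K u)) = (((1 / 8 : ℝ)) : ℂ) • generator H K := by
  unfold tot generator
  simp only [Pool.Agent.TH235.PQ.term_smul]
  rw [← Finset.smul_sum]
  push_cast
  rfl

theorem refine_evol (hgk : GKSL) (hR : R' + 1 ≤ L) {y0 : ℝ} (hy0 : 0 < y0) {m : ℕ} {T : ℝ}
    {X Y : TorOp d L} (h : Evolution (R' + 1) m T X Y) :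
    0 ≤ T ∧ ∃ (M : ℕ) (p : Fin M → ℝ × (Site L → BoxOp (d * d) (R' + 1))),
      (M : ℝ) * y0 ≤ 8 * T + m * y0 ∧ (∀ t, 0 ≤ (p t).1 ∧ (p t).1 ≤ y0 ∧ Good' (p t).2) ∧
      vec Y = (op fun t => NormedSpace.exp (((p t).1 : ℂ) • tot (p t).2)) *ᵥ vec X := by
  induction h with
  | refl X =>
    refine ⟨le_rfl, 0, Fin.elim0, by simp, fun t => t.elim0, ?_⟩
    rw [op_zero, Matrix.one_mulVec]
  | @step m T X Y Z q H K s hev hA hs hZ ih =>
    obtain ⟨hT, M, p, hM, hp, hY⟩ := ih
    refine ⟨add_nonneg hT hs, ?_⟩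
    set n : ℕ := ⌈8 * s / y0⌉₊ with hn
    have hn1 : 8 * s / y0 ≤ n := Nat.le_ceil _
    have hn2 : (n : ℝ) < 8 * s / y0 + 1 := Nat.ceil_lt_add_one (by positivity)
    set g : Site L → BoxOp (d * d) (R' + 1) := fun u => (1 / 8 : ℂ) • lindblad (H u) (K u) with hg
    have hgood : Good' g := by
      refine ⟨fun u b hb => dual_lind hR (hA u).2 u hb, ?_⟩
      rw [hg, tot_smul]
      exact markov_smul (gen_markov hgk hR hA) (by norm_num)
    refine ⟨n + M, Fin.append (fun _ => (8 * s / n, g)) p, ?_, ?_, ?_⟩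
    · push_cast
      have h1 : (n : ℝ) * y0 ≤ (8 * s / y0 + 1) * y0 := mul_le_mul_of_nonneg_right hn2.le hy0.le
      have h2 : (8 * s / y0 + 1) * y0 = 8 * s + y0 := by field_simp
      rw [h2] at h1
      linarith
    · intro t
      refine Fin.addCases (fun i => ?_) (fun i => ?_) t
      · rw [Fin.append_left]
        have hn0 : (0 : ℝ) < n := by
          have : 0 < n := lt_of_le_of_lt (Nat.zero_le _) i.2
          exact_mod_cast this
        refine ⟨by positivity, ?_, hgood⟩
        rw [div_le_iff₀ hn0]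
        rw [div_le_iff₀ hy0] at hn1
        linarith
      · rw [Fin.append_right]
        exact hp i
    · rw [append_comp (fun x : ℝ × (Site L → BoxOp (d * d) (R' + 1)) =>
        NormedSpace.exp (((x.1 : ℝ) : ℂ) • tot x.2)), op_append, ← Matrix.mulVec_mulVec, ← hY, hZ]
      congr 1
      rw [op_const, ← Matrix.exp_nsmul]
      congr 1
      rw [hg, tot_smul, smul_smul, ← Nat.cast_smul_eq_nsmul ℂ, smul_smul]
      congr 1
      rcases Nat.eq_zero_or_pos n with h0 | h0
      · have h1 : 8 * s / y0 ≤ 0 := by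
          rw [h0] at hn1
          simpa using hn1
        have h2 : s = 0 := by
          rw [div_le_iff₀ hy0] at h1
          linarith
        rw [h2]
        simp
      · have h1 : (n : ℂ) ≠ 0 := by
          exact_mod_cast h0.ne'
        push_cast
        field_simp

end Pool.Agent.Helper66.FT
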