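import Pool.Agent.Helper66.FT.Gen
import Pool.Agent.Helper66.FT.TN
import Pool.Agent.Helper66.FD.Step

/-!
Truncated expansion of a time dependent Markovian evolution.
-/

set_option autoImplicit false
set_option linter.unusedSectionVars false

open scoped BigOperators Matrix ComplexConjugate ComplexOrder ENNReal
open Finset Pool.Agent.TH235.PP Pool.Agent.Results.MP_953b23_mp.OverlapBoosting
  Pool.Agent.Helper99.PE Pool.Agent.Helper66.FD

namespace Pool.Agent.Helper66.FT

theorem KTt_map {R S : Type*} [Ring R] [Ring S] (f : R →+* S) {M N : ℕ} (y : Fin M → Fin N → R)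
    (r : ℕ) : f (KTt y r) = KTt (fun t b => f (y t b)) r := by
  unfold KTt
  rw [map_sum]
  refine Finset.sum_congr rfl fun F _ => ?_
  by_cases h : ∀ b, cnt F b ≤ r
  · rw [if_pos h, if_pos h]
    unfold PFt pr
    rw [op_map']
    congr 1
    funext t
    rw [op_map']
    congr 1
    funext b
    beta_reduce
    split_ifs
    · rfl
    · exact map_one f
  · rw [if_neg h, if_neg h, map_zero]

variable {L d R : ℕ} [NeZero L]

/-- the sum of the terms of `g` -/
noncomputable def tot (g : Site L → BoxOp (d * d) R) : TorOp (d * d) L := ∑ u, term (g u) u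

/-- the terms of `g` are contractions and their sum generates a Markov semigroup -/
def Good' (g : Site L → BoxOp (d * d) R) : Prop :=
  (∀ u, ∀ b ∈ Dual d L, b ᵥ* term (g u) u ∈ Dual d L) ∧ IsMarkov (tot g)

/-- time dependent evolution on a grid -/
theorem grid_bound (hd : 0 < d) {M : ℕ} (τ : Fin M → ℝ) (g : Fin M → Site L → BoxOp (d * d) R)
    (hg : ∀ t, Good' (g t)) {y0 : ℝ} (hτ0 : ∀ t, 0 ≤ τ t) (hτ : ∀ t, τ t ≤ y0) (hy0 : 0 ≤ y0)
    (r : ℕ) (e : Fin (L ^ 2) ≃ Site L) (h1 : ((L ^ 2 : ℕ) : ℝ) * y0 ≤ 1 / 4)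
    (h2 : 2 * M * (((L ^ 2 : ℕ) : ℝ) * y0) ^ 2 ≤ 1)
    (h3 : ((L ^ 2 : ℕ) : ℝ) * Real.exp (13 * (M * y0) - r) ≤ 1) :
    ‖act d L (KTt (fun t b => ((τ t : ℝ) : ℂ) • term (g t (e b)) (e b)) r) -
      act d L (op fun t => NormedSpace.exp ((τ t : ℂ) • tot (g t)))‖ ≤
      18 * (((L ^ 2 : ℕ) : ℝ) * Real.exp (13 * (M * y0) - r)) +
        14 * (M * (((L ^ 2 : ℕ) : ℝ) * y0) ^ 2) := by
  have := nontrivial_TV (L := L) hd
  set y : Fin M → Fin (L ^ 2) → (TV d L →L[ℂ] TV d L) :=
    fun t b => act d L ((τ t : ℂ) • term (g t (e b)) (e b)) with hy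
  have hy1 : ∀ t b, ‖y t b‖ ≤ y0 := by
    intro t b
    rw [hy]
    simp only []
    rw [act_smul, norm_smul, Complex.norm_real, Real.norm_of_nonneg (hτ0 t)]
    exact (mul_le_of_le_one_right (hτ0 t) (act_norm fun b' hb' => (hg t).1 (e b) b' hb')).trans
      (hτ t)
  set x : Fin M → (TV d L →L[ℂ] TV d L) := fun t => act d L ((τ t : ℂ) • tot (g t)) with hx
  have hsum : ∀ t, ∑ b, y t b = x t := by
    intro t
    rw [hy, hx]
    simp only []
    rw [← map_sum, ← Finset.smul_sum]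
    congr 2
    unfold tot
    exact e.sum_comp (fun u => term (g t u) u)
  set N : ℝ := ((L ^ 2 : ℕ) : ℝ) with hN
  have hN0 : 0 ≤ N := Nat.cast_nonneg _
  have hxn : ∀ t, ‖x t‖ ≤ N * y0 := by
    intro t
    rw [← hsum]
    refine (norm_sum_le _ _).trans ((Finset.sum_le_sum fun b _ => hy1 t b).trans ?_)
    rw [Finset.sum_const, card_univ, Fintype.card_fin, nsmul_eq_mul]
  have hx1 : ∀ t, ‖x t‖ ≤ 1 := fun t => (hxn t).trans (by linarith)
  have hq : ∀ t, ‖NormedSpace.exp (x t) - 1 - x t‖ ≤ (N * y0) ^ 2 := fun t =>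
    (exp_quad (x t) (hx1 t)).trans (pow_le_pow_left₀ (norm_nonneg _) (hxn t) 2)
  have hE : ∀ t, ‖NormedSpace.exp (x t)‖ ≤ 1 := by
    intro t
    rw [hx]
    simp only []
    rw [← act_exp]
    exact act_norm fun b hb => dual_markov (hg t).2 (hτ0 t) hb
  set k : ℝ := (N * y0) ^ 2 with hk
  have hk0 : 0 ≤ k := by positivity
  have hG : ∀ t, ‖1 + ∑ b, y t b‖ ≤ 1 + k := by
    intro t
    rw [hsum]
    have h4 : 1 + x t = NormedSpace.exp (x t) - (NormedSpace.exp (x t) - 1 - x t) := by abel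
    rw [h4]
    exact (norm_sub_le _ _).trans (add_le_add (hE t) (hq t))
  have ht := trunc_boundt (M := M) y y0 (1 + k) hy0 hy1 hG (by linarith) h1 r h2 h3
  -- the product of the exponentials
  have hp : ‖(op fun t => 1 + ∑ b, y t b) - op fun t => NormedSpace.exp (x t)‖ ≤
      (1 + k) ^ M - 1 := by
    have h4 := norm_op_diff (fun t => 1 + ∑ b, y t b) (fun t => NormedSpace.exp (x t)) 1 k
      zero_le_one hk0 hE (fun t => by
        rw [hsum]
        have h5 : 1 + x t - NormedSpace.exp (x t) = -(NormedSpace.exp (x t) - 1 - x t) := by abel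
        rw [h5, norm_neg]
        exact hq t)
    rwa [one_pow] at h4
  have hop : act d L (op fun t => NormedSpace.exp ((τ t : ℂ) • tot (g t))) =
      op fun t => NormedSpace.exp (x t) := by
    rw [op_map']
    congr 1
    funext t
    exact act_exp _
  set u : ℝ := M * k with hu
  have hu0 : 0 ≤ u := by positivity
  have hu1 : u ≤ 1 := by
    have h4 : 2 * M * k ≤ 1 := h2
    rw [hu]; nlinarith
  have h1k : (1 + k) ^ M ≤ Real.exp u := by
    rw [hu, Real.exp_nat_mul]
    exact pow_le_pow_left₀ (by positivity) (by linarith [Real.add_one_le_exp k]) M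
  have hexp := exp_bd2 hu0 hu1
  have h1k3 : (1 + k) ^ M ≤ 3 := by linarith
  rw [KTt_map, hop]
  have h6 : ‖KTt y r - op fun t => NormedSpace.exp (x t)‖ ≤ (1 + k) ^ M *
      (6 * (N * Real.exp (13 * (M * y0) - r)) + 4 * u) + ((1 + k) ^ M - 1) := by
    have h7 : (KTt y r - op fun t => NormedSpace.exp (x t)) =
        (KTt y r - op fun t => 1 + ∑ b, y t b) +
        ((op fun t => 1 + ∑ b, y t b) - op fun t => NormedSpace.exp (x t)) := by abel
    rw [h7]
    exact (norm_add_le _ _).trans (add_le_add ht hp)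
  refine h6.trans ?_
  have h8 : (1 + k) ^ M * (6 * (N * Real.exp (13 * (M * y0) - r)) + 4 * u) ≤
      3 * (6 * (N * Real.exp (13 * (M * y0) - r)) + 4 * u) :=
    mul_le_mul_of_nonneg_right h1k3 (by positivity)
  linarith

end Pool.Agent.Helper66.FT
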